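import Pool.Agent.Helper82.SG.St

/-!
# Project SG, module NPT: sets with at most `N` points
-/

set_option autoImplicit false

namespace Pool.Agent.Helper16.SG

open Finset Real MeasureTheory Pool.Agent.Helper77.Steiner Pool.Agent.Helper82.SG
open Pool.Agent.Helper18.GP (nlen NConn)
open scoped ENNReal

/-- The lattice box has at most `(M + 1) ^ d` points. -/
theorem card_grid_le (d M : ℕ) : (grid d M).card ≤ (M + 1) ^ d := by
  unfold grid
  refine Finset.card_image_le.trans ?_
  rw [Fintype.card_piFinset]
  simp

/-- Module NPT. -/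
theorem hNPT (hFIN : StFIN) (hHAU : StHAU) (hLNT : StLNT) : StNPT := by
  intro d M N hd hM hN
  refine le_trans ?_ (hFIN d M hd hM).2
  unfold gridRatio
  refine le_iInf fun A => le_iInf fun B => le_iInf fun hA => le_iInf fun hAB => le_iInf fun hB => ?_
  have hcard : A.card ≤ N := (Finset.card_le_card (hAB.trans hB)).trans ((card_grid_le d M).trans hN)
  have hBne : B.Nonempty := by
    have : A.Nonempty := Finset.card_pos.1 (by omega)
    exact this.mono hAB
  obtain ⟨l, hl, hnet⟩ := hLNT.1 B hBne
  have h1 : steinerLen A ≤ ENNReal.ofReal (mstLen B) :=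
    (hHAU A B l hnet hAB).trans (ENNReal.ofReal_le_ofReal hl)
  refine iInf_le_of_le A (iInf_le_of_le hA (iInf_le_of_le hcard ?_))
  exact ENNReal.div_le_div_right h1 _

end Pool.Agent.Helper16.SG
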